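import Pool.Agent.W719.AX.Gen

/-! Project AX, part TC: the two-constants lemma. -/

set_option autoImplicit false

namespace Pool.Agent.W637.AX

open Set Filter Topology Complex
open Pool.Agent.W719.AX Pool.Agent.W711.HT

lemma core {ρ τ ρ' : ℝ} (hτ : 0 < τ) (_hρ' : 0 < ρ') (hρ : ρ' < ρ) (h : ℂ → ℂ) (B η : ℝ)
    (hη : 0 < η) (hηB : η ≤ B) (hd : DifferentiableOn ℂ h (Rc ρ τ))
    (hB : ∀ z ∈ Rc ρ τ, ‖h z‖ ≤ B) (hη' : ∀ x : ℝ, |x| < ρ → ‖h x‖ ≤ η)
    (z : ℂ) (hz1 : |z.re| < ρ') (hz2 : 0 ≤ z.im)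
    (hz3 : z.im < min (τ / 2) ((ρ - ρ') / 2 / 2) / 3) :
    ‖h z‖ ≤ Real.sqrt (B * η) := by
  set r := (ρ - ρ') / 2 with hr
  have hr0 : 0 < r := by rw [hr]; linarith
  set H := min (τ / 2) (r / 2) with hH
  have hH0 : 0 < H := lt_min (by linarith) (by linarith)
  have hHτ : H < τ := lt_of_le_of_lt (min_le_left _ _) (by linarith)
  have hHr : H ≤ r / 2 := min_le_right _ _
  have hB0 : 0 < B := lt_of_lt_of_le hη hηB
  set x0 := z.re with hx0
  set lam := Real.log (B / η) with hlam
  have hlam0 : 0 ≤ lam := Real.log_nonneg (by rw [le_div_iff₀ hη]; linarith)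
  have hexp : Real.exp lam = B / η := Real.exp_log (by positivity)
  set v : ℂ → ℂ := fun w => 1 + Complex.I * ((3 / (2 * H) : ℝ) : ℂ) * (w - x0)
    - ((2 / r ^ 2 : ℝ) : ℂ) * (w - x0) ^ 2 with hv
  have hvre : ∀ w : ℂ, (v w).re = 1 - 3 / (2 * H) * w.im
      - 2 / r ^ 2 * ((w.re - x0) ^ 2 - w.im ^ 2) := by
    intro w
    simp only [hv, sub_re, add_re, one_re, mul_re, mul_im, I_re, I_im, ofReal_re, ofReal_im, sub_im,
      pow_two]
    ring
  have hβH : ∀ y : ℝ, 0 ≤ y → y ≤ H → 2 / r ^ 2 * y ^ 2 ≤ 1 / 2 := by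
    intro y hy hyH
    rw [div_mul_eq_mul_div, div_le_iff₀ (by positivity)]
    nlinarith
  have hαH : 3 / (2 * H) * H = 3 / 2 := by field_simp
  set f : ℂ → ℂ := fun w => h w * Complex.exp (lam * v w) with hf
  have hnf : ∀ w, ‖f w‖ = ‖h w‖ * Real.exp (lam * (v w).re) := by
    intro w
    simp only [hf, norm_mul, Complex.norm_exp, re_ofReal_mul]
  set U : Set ℂ := (Ioo (x0 - r) (x0 + r)) ×ℂ (Ioo 0 H) with hU
  have hcl : closure U = (Icc (x0 - r) (x0 + r)) ×ℂ (Icc 0 H) := by
    rw [hU, closure_reProdIm, closure_Ioo (by linarith), closure_Ioo (by linarith)]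
  have hsub : closure U ⊆ Rc ρ τ := by
    rw [hcl]
    intro w hw
    rw [mem_reProdIm] at hw
    obtain ⟨⟨h1, h2⟩, h3, h4⟩ := hw
    have h5 := abs_lt.mp hz1
    constructor
    · rw [abs_lt]; constructor <;> linarith
    · rw [abs_lt]; constructor <;> linarith
  have hb : Bornology.IsBounded U :=
    Bornology.IsBounded.reProdIm (Metric.isBounded_Ioo _ _) (Metric.isBounded_Ioo _ _)
  have hdf : DiffContOnCl ℂ f U := by
    apply DifferentiableOn.diffContOnCl
    refine (hd.mono hsub).mul ?_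
    apply Differentiable.differentiableOn
    simp only [hv]
    fun_prop
  have hfr : ∀ w ∈ frontier U, ‖f w‖ ≤ B := by
    intro w hw
    have hwc : w ∈ closure U := frontier_subset_closure hw
    have hwR : w ∈ Rc ρ τ := hsub hwc
    rw [hcl, mem_reProdIm] at hwc
    obtain ⟨⟨h1, h2⟩, h3, h4⟩ := hwc
    rw [hnf]
    rw [hU, frontier_reProdIm, closure_Ioo (by linarith), closure_Ioo (by linarith),
      frontier_Ioo hH0, frontier_Ioo (show x0 - r < x0 + r by linarith)] at hw
    have hgen : (v w).re ≤ 0 → ‖h w‖ * Real.exp (lam * (v w).re) ≤ B := by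
      intro hv0
      have h5 : Real.exp (lam * (v w).re) ≤ 1 :=
        Real.exp_le_one_iff.mpr (mul_nonpos_of_nonneg_of_nonpos hlam0 hv0)
      calc ‖h w‖ * Real.exp (lam * (v w).re) ≤ B * 1 :=
            mul_le_mul (hB w hwR) h5 (Real.exp_pos _).le hB0.le
        _ = B := mul_one B
    have hα : 0 < 3 / (2 * H) := by positivity
    have hsq : 0 ≤ 2 / r ^ 2 * (w.re - x0) ^ 2 := by positivity
    have hy := hβH w.im h3 h4
    rcases hw with hw | hw
    · rw [mem_reProdIm] at hw
      rcases hw.2 with h5 | h5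
      · -- bottom
        have hw' : w = ((w.re : ℝ) : ℂ) := Complex.ext (by simp) (by simp [h5])
        have h6 : ‖h w‖ ≤ η := by
          rw [hw']; exact hη' _ hwR.1
        have h7 : (v w).re ≤ 1 := by
          rw [hvre, h5]; nlinarith
        have h8 : Real.exp (lam * (v w).re) ≤ B / η := by
          rw [← hexp]
          apply Real.exp_le_exp.mpr
          nlinarith
        calc ‖h w‖ * Real.exp (lam * (v w).re) ≤ η * (B / η) :=
              mul_le_mul h6 h8 (Real.exp_pos _).le hη.le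
          _ = B := by field_simp
      · -- top
        have h5' : w.im = H := h5
        apply hgen
        rw [hvre, h5', hαH]
        rw [h5'] at hy
        nlinarith
    · rw [mem_reProdIm] at hw
      apply hgen
      have h6 : (w.re - x0) ^ 2 = r ^ 2 := by
        rcases hw.1 with h5 | h5
        · rw [h5]; ring
        · have h5' : w.re = x0 + r := h5
          rw [h5']; ring
      have h7 : 2 / r ^ 2 * r ^ 2 = 2 := by field_simp
      rw [hvre, h6]
      have h8 : 0 ≤ 3 / (2 * H) * w.im := mul_nonneg hα.le h3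
      nlinarith
  have hzU : z ∈ closure U := by
    rw [hcl, mem_reProdIm]
    exact ⟨⟨by linarith, by linarith⟩, hz2, by linarith⟩
  have key := norm_le_of_forall_mem_frontier_norm_le hb hdf hfr hzU
  rw [hnf] at key
  have hvz : 1 / 2 ≤ (v z).re := by
    rw [hvre]
    have h9 : 3 / (2 * H) * z.im ≤ 1 / 2 := by
      rw [div_mul_eq_mul_div, div_le_iff₀ (by positivity)]
      nlinarith
    have h10 : 0 ≤ 2 / r ^ 2 * z.im ^ 2 := by positivity
    have h11 : z.re - x0 = 0 := by rw [hx0]; ring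
    rw [h11]
    nlinarith
  have h12 : Real.sqrt (B / η) ≤ Real.exp (lam * (v z).re) := by
    rw [← hexp, ← Real.exp_half]
    apply Real.exp_le_exp.mpr
    nlinarith
  have h13 : ‖h z‖ * Real.sqrt (B / η) ≤ B :=
    (mul_le_mul_of_nonneg_left h12 (norm_nonneg _)).trans key
  have h14 : 0 < Real.sqrt (B / η) := Real.sqrt_pos.mpr (by positivity)
  have h15 : Real.sqrt (B * η) * Real.sqrt (B / η) = B := by
    rw [← Real.sqrt_mul (by positivity)]
    have : B * η * (B / η) = B ^ 2 := by field_simp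
    rw [this, Real.sqrt_sq hB0.le]
  exact le_of_mul_le_mul_right (h13.trans h15.ge) h14

theorem tc : S_TC := by
  intro ρ τ ρ' hτ hρ' hρ
  have hr0 : 0 < (ρ - ρ') / 2 := by linarith
  have hm : 0 < min (τ / 2) ((ρ - ρ') / 2 / 2) := lt_min (by linarith) (by linarith)
  have hm' : min (τ / 2) ((ρ - ρ') / 2 / 2) ≤ τ / 2 := min_le_left _ _
  refine ⟨min (τ / 2) ((ρ - ρ') / 2 / 2) / 3, by positivity, by linarith, ?_⟩
  intro h B η hη hηB hd hB hη' z hz
  obtain ⟨hz1, hz2⟩ := hz
  rw [abs_lt] at hz2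
  rcases le_total 0 z.im with h0 | h0
  · exact core hτ hρ' hρ h B η hη hηB hd hB hη' z hz1 h0 hz2.2
  · have hneg : ∀ w : ℂ, w ∈ Rc ρ τ → -w ∈ Rc ρ τ := by
      intro w hw
      exact ⟨by rw [neg_re, abs_neg]; exact hw.1, by rw [neg_im, abs_neg]; exact hw.2⟩
    have h1 := core hτ hρ' hρ (fun w => h (-w)) B η hη hηB
      (hd.comp differentiable_neg.differentiableOn hneg)
      (fun w hw => hB _ (hneg w hw))
      (fun x hx => by
        have := hη' (-x) (by rw [abs_neg]; exact hx)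
        rw [ofReal_neg] at this
        exact this) (-z) (by rw [neg_re, abs_neg]; exact hz1)
      (by rw [neg_im]; linarith) (by rw [neg_im]; linarith [hz2.1])
    simpa using h1

end Pool.Agent.W637.AX
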